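import Mathlib

namespace Pool.Agent.Results.MP_bb9d96_lc.Tight

/-- a finite directed multigraph with edges labelled in `A` -/
structure Pres (A : Type) where
  V : Type
  E : Type
  finV : Finite V
  finE : Finite E
  src : E → V
  tgt : E → V
  lab : E → A

/-- label sequences of the bi-infinite walks -/
def Pres.shift {A : Type} (G : Pres A) : Set (ℤ → A) :=
  {x | ∃ e : ℤ → G.E, ∀ i, G.tgt (e i) = G.src (e (i + 1)) ∧ G.lab (e i) = x i}

/-- at most one outgoing edge with a given label at each vertex -/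
def Pres.Det {A : Type} (G : Pres A) : Prop :=
  ∀ e e' : G.E, G.src e = G.src e' → G.lab e = G.lab e' → e = e'

/-- bi-infinite sequences avoiding every word of `F` (words of length `M + 1`) -/
def avoid {A : Type} {M : ℕ} (F : Set (Fin (M + 1) → A)) : Set (ℤ → A) :=
  {x | ∀ i : ℤ, (fun j : Fin (M + 1) => x (i + (j : ℕ))) ∉ F}

def IsStep {A : Type} (X : Set (ℤ → A)) (M : ℕ) : Prop :=
  ∃ F : Set (Fin (M + 1) → A), X = avoid F

def IsSFT {A : Type} (X : Set (ℤ → A)) : Prop := ∃ M, IsStep X M

noncomputable def minStep {A : Type} (X : Set (ℤ → A)) : ℕ := sInf {M | IsStep X M}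

/-- least number of vertices of a deterministic presentation -/
noncomputable def sd {A : Type} (X : Set (ℤ → A)) : ℕ :=
  sInf {m | ∃ G : Pres A, G.Det ∧ G.shift = X ∧ Nat.card G.V = m}

/-! ### the binary counter -/

theorem tb_succ (i : ℕ) : ∀ t : ℕ, (t + 1).testBit i =
    (t.testBit i ^^ decide (∀ k < i, t.testBit k = true)) := by
  induction i with
  | zero => intro t; simp only [Nat.testBit_zero]; rcases Nat.mod_two_eq_zero_or_one t with h | h <;>
      simp [h, Nat.add_mod]
  | succ i ih =>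
    intro t
    rw [Nat.testBit_succ, Nat.testBit_succ]
    rcases Nat.mod_two_eq_zero_or_one t with h | h
    · have h1 : (t + 1) / 2 = t / 2 := by omega
      have h2 : ¬ ∀ k < i + 1, t.testBit k = true := fun H => by
        have := H 0 (by omega); simp [Nat.testBit_zero, h] at this
      rw [h1, decide_eq_false h2, Bool.xor_false]
    · have h1 : (t + 1) / 2 = t / 2 + 1 := by omega
      rw [h1, ih]
      congr 1
      apply decide_eq_decide.2
      constructor
      · intro H k hk
        rcases k with _ | k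
        · simp [Nat.testBit_zero, h]
        · rw [Nat.testBit_succ]; exact H k (by omega)
      · intro H k hk
        have := H (k + 1) (by omega)
        rwa [Nat.testBit_succ] at this

theorem ex (t : ℕ) : ∃ j, t.testBit j = false :=
  ⟨t, Nat.testBit_lt_two_pow Nat.lt_two_pow_self⟩

/-- number of trailing ones -/
def tr (t : ℕ) : ℕ := Nat.find (ex t)

theorem tr_spec (t : ℕ) : t.testBit (tr t) = false := Nat.find_spec (ex t)

theorem tr_lt {t j : ℕ} (h : j < tr t) : t.testBit j = true := by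
  have := Nat.find_min (ex t) h
  simpa using this

theorem tr_le {t n : ℕ} (h : t < 2 ^ n) : tr t ≤ n :=
  Nat.find_min' (ex t) (Nat.testBit_lt_two_pow h)

theorem tr_top (n : ℕ) : tr (2 ^ n - 1) = n := by
  have h0 : 0 < 2 ^ n := by positivity
  have h1 := tr_le (show 2 ^ n - 1 < 2 ^ n by omega)
  have h2 := tr_spec (2 ^ n - 1)
  rw [Nat.testBit_two_pow_sub_one] at h2
  simp at h2
  omega

theorem tr_lt_n {t n : ℕ} (h : t + 1 < 2 ^ n) : tr t < n := by
  by_contra hc
  have : 2 ^ n - 1 ≤ t := by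
    apply Nat.le_of_testBit
    intro i hi
    rw [Nat.testBit_two_pow_sub_one] at hi
    simp at hi
    exact tr_lt (by omega)
  omega

theorem tb_step (t b : ℕ) : (t + 1).testBit b =
    if tr t < b then t.testBit b else if tr t = b then true else false := by
  rw [tb_succ]
  split_ifs with h1 h2
  · have : ¬ ∀ k < b, t.testBit k = true := fun H => by
      have := H _ h1; rw [tr_spec] at this; exact absurd this (by simp)
    simp [this]
  · subst h2
    have : ∀ k < tr t, t.testBit k = true := fun k hk => tr_lt hk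
    simp [tr_spec, this]
    exact fun k hk => tr_lt hk
  · have h3 : b < tr t := by omega
    have : ∀ k < b, t.testBit k = true := fun k hk => tr_lt (by omega)
    simp [tr_lt h3]
    exact this

abbrev Al (n : ℕ) := Option (Fin (n + 1))
abbrev St (n : ℕ) := Option (Fin n × Option Bool)

/-- the letter read at time `t` -/
def nu (n t : ℕ) : Fin (n + 1) := ⟨min (tr t) n, by omega⟩

def stp {n : ℕ} (b : Fin n) (β : Bool) (j : Fin (n + 1)) : Option (St n) :=
  if j.val < b.val then some (some (b, some β))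
  else if j.val = b.val then (if β then some none else some (some (b, some true)))
  else if β then (if j.val = n then none else some (some (b, some false))) else some none

def δ {n : ℕ} : St n → Al n → Option (St n)
  | none, none => none
  | none, some _ => some none
  | some (b, none), none => some (some (b, none))
  | some (b, none), some j => stp b false j
  | some (_, some _), none => none
  | some (b, some β), some j => stp b β j

def st {n : ℕ} (b : Fin n) (t : ℕ) : St n :=
  some (b, if t = 0 then none else some (t.testBit b))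

theorem δ_st {n : ℕ} (b : Fin n) (t : ℕ) (j : Fin (n + 1)) :
    δ (st b t) (some j) = stp b (t.testBit b) j := by
  unfold st
  split_ifs with h
  · subst h; simp [δ]
  · simp [δ]

theorem stp_ok {n : ℕ} (b : Fin n) {t : ℕ} (h : t + 1 < 2 ^ n) :
    stp b (t.testBit b) (nu n t) = some (st b (t + 1)) := by
  have h1 := tr_lt_n h
  have h2 : (nu n t).val = tr t := by simp [nu]; omega
  unfold stp st
  rw [h2, tb_step, if_neg (Nat.succ_ne_zero t)]
  split_ifs with a1 a2 a3 a4 a5
  · rfl
  · rw [← a2, tr_spec] at a3; exact absurd a3 (by simp)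
  · rfl
  · omega
  · rfl
  · exact absurd (tr_lt (by omega)) a4

theorem stp_dead {n : ℕ} (b : Fin n) :
    stp b ((2 ^ n - 1).testBit b) (nu n (2 ^ n - 1)) = none := by
  have h2 : (nu n (2 ^ n - 1)).val = n := by simp [nu, tr_top]
  have h3 : (2 ^ n - 1).testBit b = true := by
    rw [Nat.testBit_two_pow_sub_one]; simp
  have := b.2
  unfold stp
  rw [h2, h3, if_neg (by omega), if_neg (by omega)]
  simp

theorem stp_err {n t : ℕ} (h : t < 2 ^ n) (j : Fin (n + 1)) (hj : j ≠ nu n t) :
    ∃ b : Fin n, stp b (t.testBit b) j = some none := by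
  have h1 := tr_le h
  have h2 : (nu n t).val = tr t := by simp [nu]; omega
  have h3 : j.val ≠ tr t := fun e => hj (Fin.ext (by rw [h2, e]))
  have := j.2
  rcases lt_or_gt_of_ne h3 with h4 | h4
  · refine ⟨⟨j.val, by omega⟩, ?_⟩
    simp [stp, tr_lt h4]
  · refine ⟨⟨tr t, by omega⟩, ?_⟩
    simp only [stp, tr_spec]
    rw [if_neg (by omega), if_neg (by omega)]
    simp

theorem stp_ne {n : ℕ} (b : Fin n) (β : Bool) (j : Fin (n + 1)) (b' : Fin n) :
    stp b β j ≠ some (some (b', none)) := by
  unfold stp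
  split_ifs <;> simp

def G (n : ℕ) : Pres (Al n) where
  V := St n
  E := {p : St n × Al n × St n // δ p.1 p.2.1 = some p.2.2}
  finV := inferInstance
  finE := inferInstance
  src := fun e => e.1.1
  tgt := fun e => e.1.2.2
  lab := fun e => e.1.2.1

theorem G_det (n : ℕ) : (G n).Det := by
  rintro ⟨⟨a, b, c⟩, h⟩ ⟨⟨a', b', c'⟩, h'⟩ h1 h2
  simp only [G] at h1 h2
  subst h1 h2
  simp only at h h'
  have : c = c' := Option.some.inj (h.symm.trans h')
  subst this
  rfl

theorem mem_G {n : ℕ} (x : ℤ → Al n) :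
    x ∈ (G n).shift ↔ ∃ s : ℤ → St n, ∀ i, δ (s i) (x i) = some (s (i + 1)) := by
  constructor
  · rintro ⟨e, he⟩
    refine ⟨fun i => (e i).1.1, fun i => ?_⟩
    have h1 := (e i).2
    have h2 := he i
    simp only [G] at h2
    rw [← h2.2, h1, h2.1]
  · rintro ⟨s, hs⟩
    exact ⟨fun i => ⟨(s i, x i, s (i + 1)), hs i⟩, fun i => ⟨rfl, rfl⟩⟩

/-- the shift -/
def X (n : ℕ) : Set (ℤ → Al n) :=
  {x | (∀ i, x (i + 1) = none → x i = none) ∧
    ∀ i, ¬ (x i = none ∧ ∀ t < 2 ^ n, x (i + 1 + (t : ℕ)) = some (nu n t))}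

theorem δ_none {n : ℕ} {s s' : St n} (h : δ s none = some s') :
    ∃ b, s = some (b, none) ∧ s' = some (b, none) := by
  rcases s with _ | ⟨b, _ | β⟩
  · simp [δ] at h
  · simp [δ] at h; exact ⟨b, rfl, h.symm⟩
  · simp [δ] at h

theorem G_sub (n : ℕ) : (G n).shift ⊆ X n := by
  intro x hx
  obtain ⟨s, hs⟩ := (mem_G x).1 hx
  constructor
  · intro i hi
    have h1 := hs (i + 1)
    rw [hi] at h1
    obtain ⟨b, h2, -⟩ := δ_none h1
    have h3 := hs i
    rw [h2] at h3
    rcases hx : x i with _ | j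
    · rfl
    · rw [hx] at h3
      rcases hsi : s i with _ | ⟨b', _ | β⟩
      · rw [hsi] at h3; simp [δ] at h3
      · rw [hsi] at h3; exact absurd h3 (stp_ne _ _ _ _)
      · rw [hsi] at h3; exact absurd h3 (stp_ne _ _ _ _)
  · rintro i ⟨h0, h1⟩
    have h2 := hs i
    rw [h0] at h2
    obtain ⟨b, -, h3⟩ := δ_none h2
    have h4 : ∀ t < 2 ^ n, s (i + 1 + (t : ℕ)) = st b t := by
      intro t
      induction t with
      | zero => intro _; simp [st, h3]
      | succ t ih =>
        intro ht
        have h5 := hs (i + 1 + (t : ℕ))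
        rw [ih (by omega), h1 t (by omega), δ_st, stp_ok b ht] at h5
        have h6 := Option.some.inj h5
        rw [h6]; congr 1; push_cast; ring
    have h0 : 0 < 2 ^ n := by positivity
    have h5 := hs (i + 1 + ((2 ^ n - 1 : ℕ) : ℤ))
    rw [h4 _ (by omega), h1 _ (by omega), δ_st, stp_dead] at h5
    exact absurd h5 (by simp)

theorem sub_G (n : ℕ) (hn : 0 < n) : X n ⊆ (G n).shift := by
  rintro x ⟨h1, h2⟩
  rw [mem_G]
  by_cases ha : ∀ i, x i = none
  · exact ⟨fun _ => some (⟨0, hn⟩, none), fun i => by rw [ha i]; rfl⟩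
  by_cases hb : ∀ i, x i ≠ none
  · refine ⟨fun _ => none, fun i => ?_⟩
    rcases hx : x i with _ | j
    · exact absurd hx (hb i)
    · rfl
  push Not at ha hb
  obtain ⟨q, hq⟩ := ha
  have hdown : ∀ (k : ℕ) (i : ℤ), x (i + k) = none → x i = none := by
    intro k
    induction k with
    | zero => intro i h; simpa using h
    | succ k ih =>
      intro i h
      apply h1
      apply ih
      rw [← h]; congr 1; push_cast; ring
  have hdown' : ∀ i j : ℤ, i ≤ j → x j = none → x i = none := by
    intro i j hij h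
    apply hdown (j - i).toNat
    rw [← h]; congr 1; omega
  obtain ⟨p, hp, hmax⟩ := Int.exists_greatest_of_bdd (P := fun i => x i = none)
    ⟨q, fun z hz => by by_contra hc; exact hq (hdown' q z (by omega) hz)⟩ hb
  have hex : ∃ t, t < 2 ^ n ∧ x (p + 1 + (t : ℕ)) ≠ some (nu n t) := by
    by_contra hc
    push Not at hc
    exact h2 p ⟨hp, hc⟩
  classical
  obtain ⟨t0, ⟨ht0, hne⟩, hmin⟩ : ∃ t0, (t0 < 2 ^ n ∧ x (p + 1 + (t0 : ℕ)) ≠ some (nu n t0)) ∧
      ∀ t < t0, x (p + 1 + (t : ℕ)) = some (nu n t) := by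
    refine ⟨Nat.find hex, Nat.find_spec hex, fun t ht => ?_⟩
    have a1 := Nat.find_min hex ht
    have a2 := (Nat.find_spec hex).1
    by_contra hc
    exact a1 ⟨by omega, hc⟩
  have hsome : ∀ i, p < i → ∃ j, x i = some j := by
    intro i hi
    rcases hx : x i with _ | j
    · have := hmax i hx; omega
    · exact ⟨j, rfl⟩
  obtain ⟨j0, hj0⟩ := hsome (p + 1 + (t0 : ℕ)) (by omega)
  obtain ⟨b, hb⟩ := stp_err ht0 j0 (fun e => hne (by rw [hj0, e]))
  refine ⟨fun i => if i ≤ p + 1 + (t0 : ℕ) then st b (i - (p + 1)).toNat else none, fun i => ?_⟩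
  beta_reduce
  by_cases c1 : i ≤ p
  · rw [hdown' i p c1 hp, if_pos (by omega), if_pos (by omega)]
    have e1 : (i - (p + 1)).toNat = 0 := by omega
    have e2 : (i + 1 - (p + 1)).toNat = 0 := by omega
    rw [e1, e2]; rfl
  · obtain ⟨t, rfl⟩ : ∃ t : ℕ, i = p + 1 + t := ⟨(i - (p + 1)).toNat, by omega⟩
    have e1 : (p + 1 + (t : ℤ) - (p + 1)).toNat = t := by omega
    have e2 : (p + 1 + (t : ℤ) + 1 - (p + 1)).toNat = t + 1 := by omega
    rcases lt_trichotomy t t0 with c2 | c2 | c2
    · rw [if_pos (by omega), if_pos (by omega), e1, e2, hmin t c2, δ_st, stp_ok b (by omega)]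
    · subst c2
      rw [if_pos (by omega), if_neg (by omega), e1, hj0, δ_st, hb]
    · obtain ⟨j, hj⟩ := hsome (p + 1 + (t : ℕ)) (by omega)
      rw [if_neg (by omega), if_neg (by omega), hj]; rfl

theorem X_step (n : ℕ) : IsStep (X n) (2 ^ n) := by
  have h0 : 0 < 2 ^ n := by positivity
  refine ⟨{f | (f ⟨1, by omega⟩ = none ∧ f 0 ≠ none) ∨
    (f 0 = none ∧ ∀ t (h : t < 2 ^ n), f ⟨t + 1, by omega⟩ = some (nu n t))}, ?_⟩
  ext x
  simp only [X, avoid, Set.mem_ofPred_eq, Fin.val_zero, Nat.cast_zero, add_zero, Nat.cast_one,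
    not_or]
  constructor
  · rintro ⟨h1, h2⟩ i
    refine ⟨fun h => h.2 (h1 i h.1), fun h => h2 i ⟨h.1, fun t ht => ?_⟩⟩
    rw [← h.2 t ht]; congr 1; push_cast; ring
  · intro h
    refine ⟨fun i hi => ?_, fun i hi => (h i).2 ⟨hi.1, fun t ht => ?_⟩⟩
    · by_contra hc; exact (h i).1 ⟨hi, hc⟩
    · rw [← hi.2 t ht]; congr 1; push_cast; ring

/-- the forbidden point -/
def y (n : ℕ) (i : ℤ) : Al n :=
  if i ≤ 0 then none else some (nu n (min (i - 1).toNat (2 ^ n - 1)))

theorem y_not (n : ℕ) : y n ∉ X n := by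
  rintro ⟨-, h⟩
  refine h 0 ⟨by simp [y], fun t ht => ?_⟩
  unfold y
  rw [if_neg (by omega)]
  congr 2
  have : (0 + 1 + (t : ℤ) - 1).toNat = t := by omega
  rw [this]; omega

theorem y_none {n : ℕ} {i : ℤ} : y n i = none ↔ i ≤ 0 := by
  unfold y; split_ifs with h <;> simp [h]

/-- cut a block out of the forbidden point -/
def z (n t d : ℕ) (i : ℤ) : Al n := if i ≤ t then y n i else y n (i + d)

theorem z_mem {n t d : ℕ} (hd : 0 < d) (h : t + d < 2 ^ n) : z n t d ∈ X n := by
  have hz : ∀ i, z n t d i = none ↔ i ≤ 0 := by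
    intro i; unfold z; split_ifs with c <;> rw [y_none]; omega
  refine ⟨fun i hi => ?_, fun i hi => ?_⟩
  · rw [hz] at hi ⊢; omega
  · obtain ⟨h1, h2⟩ := hi
    have h3 := h2 0 (by omega)
    have h4 : ¬ z n t d (i + 1 + (0 : ℕ)) = none := by rw [h3]; simp
    rw [hz] at h1 h4
    have hi : i = 0 := by omega
    subst hi
    have h5 := h2 (2 ^ n - d - 1) (by omega)
    unfold z y at h5
    rw [if_neg (by omega), if_neg (by omega)] at h5
    have e1 : min (0 + 1 + ((2 ^ n - d - 1 : ℕ) : ℤ) + d - 1).toNat (2 ^ n - 1) = 2 ^ n - 1 := by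
      omega
    rw [e1] at h5
    have h6 := congrArg Fin.val (Option.some.inj h5)
    have h7 := tr_lt_n (show 2 ^ n - d - 1 + 1 < 2 ^ n by omega)
    simp only [nu, tr_top] at h6
    omega

theorem not_step {n M : ℕ} (hM : M < 2 ^ n) (hn : 0 < n) : ¬ IsStep (X n) M := by
  rintro ⟨F, hF⟩
  apply y_not n
  rw [hF]
  intro i
  by_cases c : 0 < i
  · have hm : (fun k => if k ≤ 0 then some 0 else y n k) ∈ X n := by
      have hne : ∀ k : ℤ, (if k ≤ 0 then some 0 else y n k) ≠ none := by
        intro k; split_ifs with c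
        · simp
        · rw [Ne, y_none]; exact c
      exact ⟨fun k hk => absurd hk (hne _), fun k hk => hne _ hk.1⟩
    rw [hF] at hm
    have := hm i
    convert this using 2
    funext j
    beta_reduce
    rw [if_neg (by omega)]
  · have h2 : 2 ^ 1 ≤ 2 ^ n := Nat.pow_le_pow_right (by norm_num) hn
    have hm : (fun k => if k = ((2 ^ n : ℕ) : ℤ) then some 0 else y n k) ∈ X n := by
      have hz : ∀ k : ℤ, (if k = ((2 ^ n : ℕ) : ℤ) then some 0 else y n k) = none ↔ k ≤ 0 := by
        intro k; split_ifs with c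
        · simp only [reduceCtorEq, false_iff]; omega
        · exact y_none
      refine ⟨fun k hk => ?_, fun k hk => ?_⟩
      · simp only [hz] at hk ⊢; omega
      · obtain ⟨h1, h3⟩ := hk
        have h4 := h3 0 (by omega)
        have h5 : ¬ (if k + 1 + ((0 : ℕ) : ℤ) = ((2 ^ n : ℕ) : ℤ) then some 0
            else y n (k + 1 + ((0 : ℕ) : ℤ))) = none := by
          simp only at h4; rw [h4]; simp
        simp only [hz] at h1 h5
        have hk : k = 0 := by omega
        subst hk
        have h6 := h3 (2 ^ n - 1) (by omega)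
        simp only at h6
        rw [if_pos (by omega)] at h6
        have h7 := congrArg Fin.val (Option.some.inj h6)
        simp only [nu, tr_top, Fin.val_zero] at h7
        omega
    rw [hF] at hm
    have := hm i
    convert this using 2
    funext j
    beta_reduce
    have := j.2
    rw [if_neg (by omega)]

theorem card_ge {n : ℕ} (H : Pres (Al n)) (hH : H.shift = X n) : n ≤ Nat.card H.V := by
  have := H.finV
  let S : Fin (2 ^ n) → Set H.V := fun t => {v | ∃ e : ℤ → H.E,
    (∀ i ≤ (t.val : ℤ), H.lab (e i) = y n i) ∧ (∀ i < (t.val : ℤ), H.tgt (e i) = H.src (e (i + 1))) ∧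
    H.tgt (e t.val) = v}
  have key : ∀ t t' : Fin (2 ^ n), t < t' → S t ≠ S t' := by
    intro t t' hlt heq
    obtain ⟨d, hd⟩ : ∃ d, t'.val = t.val + d := ⟨t'.val - t.val, by have : t.val < t'.val := hlt; omega⟩
    have hd0 : 0 < d := by have : t.val < t'.val := hlt; omega
    have hz := z_mem (n := n) (t := t.val) hd0 (by have := t'.2; omega)
    rw [← hH] at hz
    obtain ⟨e, he⟩ := hz
    have hv : H.tgt (e t.val) ∈ S t :=
      ⟨e, fun i hi => by rw [(he i).2, z, if_pos hi], fun i _ => (he i).1, rfl⟩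
    rw [heq] at hv
    obtain ⟨e', a1, a2, a3⟩ := hv
    apply y_not n
    rw [← hH]
    refine ⟨fun i => if i ≤ (t'.val : ℤ) then e' i else e (i - d), fun i => ⟨?_, ?_⟩⟩
    · rcases lt_trichotomy i (t'.val : ℤ) with c | c | c
      · simp only; rw [if_pos (by omega), if_pos (by omega)]; exact a2 i c
      · simp only; rw [if_pos (by omega), if_neg (by omega), c, a3, (he _).1]
        congr 2; omega
      · simp only; rw [if_neg (by omega), if_neg (by omega), (he _).1]
        congr 2; omega
    · simp only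
      split_ifs with c
      · exact a1 i c
      · rw [(he _).2, z, if_neg (by omega)]; congr 1; omega
  have hinj : Function.Injective S := by
    intro t t' h
    rcases lt_trichotomy t t' with c | c | c
    · exact absurd h (key _ _ c)
    · exact c
    · exact absurd h.symm (key _ _ c)
  have h1 := Nat.card_le_card_of_injective S hinj
  classical
  have := Fintype.ofFinite H.V
  rw [Nat.card_eq_fintype_card, Nat.card_eq_fintype_card, Fintype.card_set, Fintype.card_fin] at h1
  rw [Nat.card_eq_fintype_card]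
  exact (Nat.pow_le_pow_iff_right (by norm_num)).1 h1

theorem main (n : ℕ) (hn : 0 < n) :
    IsSFT (X n) ∧ minStep (X n) = 2 ^ n ∧ n ≤ sd (X n) ∧ sd (X n) ≤ 3 * n + 1 := by
  have hG : (G n).shift = X n := (G_sub n).antisymm (sub_G n hn)
  have hc : Nat.card (G n).V = 3 * n + 1 := by
    show Nat.card (St n) = _
    simp [St, mul_comm]
  have hne : 3 * n + 1 ∈ {m | ∃ G : Pres (Al n), G.Det ∧ G.shift = X n ∧ Nat.card G.V = m} :=
    ⟨G n, G_det n, hG, hc⟩
  refine ⟨⟨_, X_step n⟩, ?_, ?_, Nat.sInf_le hne⟩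
  · apply le_antisymm (Nat.sInf_le (X_step n))
    by_contra hc
    exact not_step (not_le.1 hc) hn (Nat.sInf_mem (s := {M | IsStep (X n) M}) ⟨_, X_step n⟩)
  · obtain ⟨H, -, h2, h3⟩ := Nat.sInf_mem ⟨_, hne⟩
    exact (card_ge H h2).trans_eq h3

theorem result :
    (∀ n : ℕ, 0 < n → ∃ X : Set (ℤ → Option (Fin (n + 1))),
      IsSFT X ∧ minStep X = 2 ^ n ∧ n ≤ sd X ∧ sd X ≤ 3 * n + 1) ∧
    ∃ c : ℝ, 0 < c ∧ ∃ (A : ℕ → Type) (_ : ∀ k, Finite (A k)) (X : ∀ k, Set (ℤ → A k)),
      (∀ k, IsSFT (X k)) ∧ Filter.Tendsto (fun k => sd (X k)) Filter.atTop Filter.atTop ∧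
      ∀ k, (2 : ℝ) ^ (c * (sd (X k) : ℝ)) ≤ (minStep (X k) : ℝ) := by
  refine ⟨fun n hn => ⟨X n, main n hn⟩, 1 / 4, by norm_num, fun k => Al (k + 1),
    fun k => inferInstance, fun k => X (k + 1), fun k => (main _ k.succ_pos).1, ?_, fun k => ?_⟩
  · refine Filter.tendsto_atTop_mono (fun k => ?_) Filter.tendsto_id
    exact (Nat.le_succ k).trans (main _ k.succ_pos).2.2.1
  · obtain ⟨-, h1, -, h2⟩ := main _ k.succ_pos
    rw [h1]
    push_cast
    rw [← Real.rpow_natCast]
    apply Real.rpow_le_rpow_of_exponent_le (by norm_num)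
    have h3 : (sd (X (k + 1)) : ℝ) ≤ 3 * ((k : ℝ) + 1) + 1 := by exact_mod_cast h2
    have h4 : (0 : ℝ) ≤ k := Nat.cast_nonneg k
    push_cast
    linarith

end Pool.Agent.Results.MP_bb9d96_lc.Tight
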